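import Pool.Agent.Q93.FLC.PUltra

/-!
For a free ultrafilter `p` on `ℕ` and `X = ℕ ∪ {p} ⊆ βℕ`, the free locally convex space `L(X)` is
nuclear if and only if it is multi-Hilbert, if and only if `p` is a rapid P-point.  In ZFC there
is a free `p` for which `L(X)` is not multi-Hilbert.
-/

set_option autoImplicit false

open Filter Topology Set

namespace Pool.Agent.Results.MP_a34ed5_an.RapidPPoint

open Pool.Agent.Q93.FLC Pool.Agent.Q93.FLC.Free

universe v

theorem result :
    (∀ p : Ultrafilter ℕ, T2Space (Free (Pt p)) ∧ IsTopologicalAddGroup (Free (Pt p)) ∧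
      ContinuousSMul ℝ (Free (Pt p)) ∧ LocallyConvexSpace ℝ (Free (Pt p)) ∧
      Continuous (del : Pt p → Free (Pt p)) ∧
      ∀ (F : Type v) [AddCommGroup F] [Module ℝ F] [TopologicalSpace F]
        [IsTopologicalAddGroup F] [ContinuousSMul ℝ F] [LocallyConvexSpace ℝ F] (f : Pt p → F),
        Continuous f → ∃! T : Free (Pt p) →L[ℝ] F, ∀ x, T (del x) = f x) ∧
    (∀ p : Ultrafilter ℕ, (∀ n, p ≠ pure n) →
      List.TFAE [Nuclear' (Free (Pt p)), Nuclear (Free (Pt p)), MultiHilbert (Free (Pt p)),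
        PPoint p ∧ Rapid p]) ∧
    (∃ p : Ultrafilter ℕ, (∀ n, p ≠ pure n) ∧ ¬ Nuclear (Free (Pt p)) ∧
      ¬ MultiHilbert (Free (Pt p))) := by
  have key : ∀ p : Ultrafilter ℕ, (∀ n, p ≠ pure n) →
      List.TFAE [Nuclear' (Free (Pt p)), Nuclear (Free (Pt p)), MultiHilbert (Free (Pt p)),
        PPoint p ∧ Rapid p] := by
    intro p hp
    tfae_have 1 → 2 := fun h => h.nuclear
    tfae_have 2 → 3 := fun h => h.multiHilbert
    tfae_have 3 → 4 := fun h => (sumProp_iff hp).1 (sumProp_of_mh hp (mh_of h))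
    tfae_have 4 → 1 := fun h => nuclear_of_sumProp hp ((sumProp_iff hp).2 h)
    tfae_finish
  refine ⟨fun p => ⟨inferInstance, inferInstance, inferInstance, inferInstance,
    continuous_del, fun F _ _ _ _ _ _ f hf => universal f hf⟩, key, ?_⟩
  obtain ⟨p, hp, hS⟩ := exists_not_sumProp
  have h := key p hp
  refine ⟨p, hp, fun hN => hS ?_, fun hM => hS ?_⟩
  · exact (sumProp_iff hp).2 ((h.out 1 3).1 hN)
  · exact (sumProp_iff hp).2 ((h.out 2 3).1 hM)

end Pool.Agent.Results.MP_a34ed5_an.RapidPPoint
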